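import Mathlib
import Pool.Agent.H24.PlotkinDefs
import Pool.Agent.H24.TreeAlg

set_option autoImplicit false
open FirstOrder FirstOrder.Language
open Pool.Agent.H24 Pool.Agent.H24.Plotkin

namespace Pool.Agent.Results.MP_74a3dd_lc.NotFG

theorem result :
    ¬ ∀ (L : FirstOrder.Language.{0, 0}), (∀ n, IsEmpty (L.Relations n)) →
      ∀ (E : Identities L) (H₁ H₂ : Type) [L.Structure H₁] [L.Structure H₂],
        Sat E H₁ → Sat E H₂ → Structure.FG L H₁ → Isotypic L H₁ H₂ → Structure.FG L H₂ := by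
  intro h
  exact TreeAlg.Hi_not_fg (h TreeAlg.LT TreeAlg.LT_rel ∅ (TreeAlg.Hs 0) TreeAlg.Hi
    (fun _ h => h.elim) (fun _ h => h.elim) (TreeAlg.Hs_fg 0)
    (TreeAlg.isotyp _ _ (TreeAlg.Hs_el 0) TreeAlg.Hi_el (TreeAlg.Hs_le 0) le_rfl 0 0 le_rfl
      (TreeAlg.Hs_le 0)))

end Pool.Agent.Results.MP_74a3dd_lc.NotFG
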